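import Pool.Agent.Lib.P6aeb5f.RegAlg
import Pool.Agent.Lib.BVU.Alg

/-!
# The regular open algebra of a preorder (universe polymorphic copy of WkD.RO)
-/

set_option autoImplicit false

open Set

namespace Pool.Agent.Lib.BVU

open Pool.Agent.Lib.P6aeb5f

universe u

variable {P : Type u} [Preorder P]

/-- The regular open algebra of `P`. -/
abbrev ROP (P : Type u) [Preorder P] : Type u := RO (LowerSet P)

/-- The canonical map. -/
noncomputable def em (p : P) : ROP P := RO.mk (LowerSet.Iic p)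

theorem em_le_iff {p : P} {b : ROP P} : em p ≤ b ↔ p ∈ b.val := by
  unfold em
  rw [RO.mk_le_iff]
  constructor
  · intro h
    exact h (LowerSet.mem_Iic_iff.2 le_rfl)
  · intro h q hq
    exact b.val.lower (LowerSet.mem_Iic_iff.1 hq) h

theorem em_mono {p q : P} (h : p ≤ q) : em p ≤ em q :=
  RO.mk_mono (LowerSet.Iic_le.2 (LowerSet.mem_Iic_iff.2 h))

theorem em_ne_bot (p : P) : em p ≠ ⊥ := by
  intro h
  have h1 : p ∈ (em p).val := em_le_iff.1 le_rfl
  rw [h] at h1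
  have h2 : ((⊥ : ROP P).val) = ⊥ := by
    have h4 : (⊥ : ROP P) ≤ RO.mk ⊥ := bot_le
    have h5 : (⊥ : ROP P).val ≤ (⊥ : LowerSet P)ᶜᶜ := h4
    rw [compl_bot, compl_top] at h5
    exact le_bot_iff.1 h5
  rw [h2] at h1
  exact h1

theorem exists_em {b : ROP P} (hb : b ≠ ⊥) : ∃ p, em p ≤ b := by
  by_contra hcon
  push Not at hcon
  apply hb
  have h1 : b ≤ ⊥ := by
    rw [RO.le_iff]
    intro p hp
    exact absurd (em_le_iff.2 hp) (hcon p)
  exact le_bot_iff.1 h1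

theorem compat_of {p q : P} (h : em p ⊓ em q ≠ ⊥) : ∃ r, r ≤ p ∧ r ≤ q := by
  by_contra hcon
  push Not at hcon
  apply h
  have h1 : em p ≤ (em q)ᶜ := by
    have h2 : (em q : ROP P) ≤ (em p)ᶜ := by
      have h3 : (LowerSet.Iic q) ≤ (LowerSet.Iic p)ᶜ := by
        rw [le_compl_iff_disjoint_right, disjoint_iff]
        apply le_bot_iff.1
        intro r hr
        have hr1 : r ∈ LowerSet.Iic q := hr.1
        have hr2 : r ∈ LowerSet.Iic p := hr.2
        exact absurd (LowerSet.mem_Iic_iff.1 hr1) (hcon r (LowerSet.mem_Iic_iff.1 hr2))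
      have h4 : ((em p)ᶜ : ROP P).val = (LowerSet.Iic p)ᶜᶜᶜ := rfl
      rw [compl_compl_compl] at h4
      have h5 : (em q : ROP P) = RO.mk (LowerSet.Iic q) := rfl
      rw [h5, RO.mk_le_iff, h4]
      exact h3
    exact le_compl_comm.1 h2
  rw [← le_bot_iff]
  exact (inf_le_inf_right _ h1).trans (compl_inf_self _).le

theorem exists_em_le {p : P} {b : ROP P} (h : em p ⊓ b ≠ ⊥) : ∃ q ≤ p, em q ≤ b := by
  obtain ⟨r, hr⟩ := exists_em h
  have h1 : em p ⊓ em r ≠ ⊥ := by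
    intro h2
    apply em_ne_bot r
    rw [← le_bot_iff, ← h2]
    exact le_inf (hr.trans inf_le_left) le_rfl
  obtain ⟨q, hq1, hq2⟩ := compat_of h1
  exact ⟨q, hq1, (em_mono hq2).trans (hr.trans inf_le_right)⟩

theorem exists_em_iSup {ι : Sort*} {p : P} {t : ι → ROP P} (h : em p ≤ ⨆ i, t i) :
    ∃ q ≤ p, ∃ i, em q ≤ t i := by
  obtain ⟨i, hi⟩ := exists_inf_ne_bot (em_ne_bot p) h
  obtain ⟨q, h2, h3⟩ := exists_em_le hi
  exact ⟨q, h2, i, h3⟩

/-- Comparison of elements through conditions. -/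
theorem le_of_em {b c : ROP P} (h : ∀ p, em p ≤ b → ∃ q ≤ p, em q ≤ c) : b ≤ c := by
  by_contra hcon
  have h1 : b ⊓ cᶜ ≠ ⊥ := by
    intro h2
    exact hcon (by rwa [← disjoint_iff, disjoint_compl_right_iff] at h2)
  obtain ⟨p, hp⟩ := exists_em h1
  obtain ⟨q, hq, hqc⟩ := h p (hp.trans inf_le_left)
  apply em_ne_bot q
  rw [← le_bot_iff, ← inf_compl_self c]
  exact le_inf hqc ((em_mono hq).trans (hp.trans inf_le_right))

/-- A condition forces `s` if the conditions forcing `s` are dense below it. -/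
theorem em_le_of_dense {p : P} {s : ROP P} (h : ∀ q ≤ p, ∃ r ≤ q, em r ≤ s) : em p ≤ s := by
  apply le_of_em
  intro q hq
  obtain ⟨r, hr1, hr2⟩ := exists_em_le (p := q) (b := em p) (by
    rw [inf_eq_left.2 hq]; exact em_ne_bot q)
  obtain ⟨r', hr'1, hr'2⟩ : ∃ r' ≤ r, r' ≤ p := by
    have h1 : em r ⊓ em p ≠ ⊥ := by
      rw [inf_eq_left.2 hr2]; exact em_ne_bot r
    obtain ⟨r', h2, h3⟩ := compat_of h1
    exact ⟨r', h2, h3⟩
  obtain ⟨t, ht1, ht2⟩ := h r' hr'2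
  exact ⟨t, ht1.trans (hr'1.trans hr1), ht2⟩

theorem not_em_compl {p : P} {s : ROP P} (h : em p ≤ s) (h' : em p ≤ sᶜ) : False :=
  em_ne_bot p (le_bot_iff.1 ((le_inf h h').trans (inf_compl_self s).le))

theorem em_le_compl_iff {p : P} {s : ROP P} : em p ≤ sᶜ ↔ ∀ q ≤ p, ¬ em q ≤ s := by
  constructor
  · intro h q hq hs
    exact not_em_compl hs ((em_mono hq).trans h)
  · intro h
    by_contra hcon
    have h1 : em p ⊓ s ≠ ⊥ := by
      intro h2
      exact hcon (by rwa [← disjoint_iff, ← le_compl_iff_disjoint_right] at h2)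
    obtain ⟨q, hq, hqs⟩ := exists_em_le h1
    exact h q hq hqs

theorem em_le_himp_iff {p : P} {s t : ROP P} : em p ≤ s ⇨ t ↔ ∀ q ≤ p, em q ≤ s → em q ≤ t := by
  constructor
  · intro h q hq hs
    have h1 : em q ≤ s ⇨ t := (em_mono hq).trans h
    rw [le_himp_iff, inf_eq_left.2 hs] at h1
    exact h1
  · intro h
    rw [le_himp_iff]
    apply le_of_em
    intro r hr
    obtain ⟨r', h2, h3⟩ : ∃ r' ≤ r, r' ≤ p := by
      have h1 : em r ⊓ em p ≠ ⊥ := by
        rw [inf_eq_left.2 (hr.trans inf_le_left)]; exact em_ne_bot r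
      obtain ⟨r', h2, h3⟩ := compat_of h1
      exact ⟨r', h2, h3⟩
    exact ⟨r', h2, h r' h3 ((em_mono h2).trans (hr.trans inf_le_right))⟩

theorem exists_decide (p : P) (s : ROP P) : ∃ q ≤ p, em q ≤ s ∨ em q ≤ sᶜ := by
  by_cases h : em p ⊓ s = ⊥
  · refine ⟨p, le_rfl, Or.inr ?_⟩
    rwa [← disjoint_iff, ← le_compl_iff_disjoint_right] at h
  · obtain ⟨q, hq, hqs⟩ := exists_em_le h
    exact ⟨q, hq, Or.inl hqs⟩

theorem eq_top_of_em {s : ROP P} (h : ∀ p, ∃ q ≤ p, em q ≤ s) : s = ⊤ :=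
  top_le_iff.1 (le_of_em fun p _ => h p)

theorem em_le_bi_iff {p : P} {s t : ROP P} :
    em p ≤ bi s t ↔ (∀ q ≤ p, em q ≤ s → em q ≤ t) ∧ (∀ q ≤ p, em q ≤ t → em q ≤ s) := by
  unfold bi
  rw [le_inf_iff, em_le_himp_iff, em_le_himp_iff]

end Pool.Agent.Lib.BVU
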